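import Pool.Agent.L7h64.FB.Stm

/-! Project FB, parts (K): S_XS, S_RAD (copies of `L7h22.FA.Xs`). -/

set_option autoImplicit false
set_option linter.unusedVariables false

open MeasureTheory Metric Set Filter Topology InnerProductGeometry

namespace Pool.Agent.L7h97.FB

open Pool.Agent.H241R3.FV (E Sph sig Fill)
open Pool.Agent.L7h64.FB

theorem psi_low {r : ℝ} (h0 : 0 ≤ r) (h1 : r ≤ 1) : 1 / 2 ≤ psi r := by
  unfold psi
  have h2 : 2 * r / (1 + r) ≤ 1 := by
    rw [div_le_one (by linarith)]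
    linarith
  have h3 : 0 ≤ 2 * r / (1 + r) := by positivity
  set l := 2 * r / (1 + r)
  have h4 : (602 / 1000 : ℝ) ≤ 1 - 199 / 500 * l := by linarith
  have h5 : (898 / 1000 : ℝ) ≤ 1 - 51 / 500 * l := by linarith
  have h6 : (1 : ℝ) ≤ 1 + 1 / 2 * l := by linarith
  have h7 : (602 / 1000 : ℝ) * (898 / 1000) ≤ (1 - 199 / 500 * l) * (1 - 51 / 500 * l) :=
    mul_le_mul h4 h5 (by norm_num) (by linarith)
  have h8 : (602 / 1000 : ℝ) * (898 / 1000) * 1 ≤
      (1 - 199 / 500 * l) * (1 - 51 / 500 * l) * (1 + 1 / 2 * l) :=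
    mul_le_mul h7 h6 (by norm_num) (by nlinarith)
  refine le_trans ?_ h8
  norm_num

theorem psi_cont {s : Set ℝ} (hs : ∀ r ∈ s, 0 ≤ r) : ContinuousOn psi s := by
  unfold psi
  have h : ContinuousOn (fun r : ℝ => 2 * r / (1 + r)) s := by
    apply ContinuousOn.div (by fun_prop) (by fun_prop)
    intro r hr
    have := hs r hr
    linarith
  exact ((continuousOn_const.sub (continuousOn_const.mul h)).mul
    (continuousOn_const.sub (continuousOn_const.mul h))).mul
    (continuousOn_const.add (continuousOn_const.mul h))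

/-- [FB-XS] -/
theorem s_XS (hDET : S_DET) : S_XS := by
  intro r0 δ h0 h1 hδ
  obtain ⟨C, hC, hF⟩ := hDET r0 h0 h1
  have hpi := Real.pi_pos
  have hc0 : 0 < √(1 - r0 ^ 2) := Real.sqrt_pos.2 (by nlinarith)
  refine ⟨(4 * Real.pi / 3) ^ 3 * √(1 - r0 ^ 2) * (1 / 2) * δ / ((1 + δ) * (C + 1)),
    by positivity, ?_⟩
  intro ε hε hε0 F hFl
  obtain ⟨hD, hI⟩ := hF F hFl
  set A : Set (E 3) := closedBall (0 : E 3) r0 ∩ {x | ‖T F x‖ < ε} with hA
  choose! L hL using hD
  have hLA : ∀ x ∈ A, HasFDerivAt (T F) (L x) x ∧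
      (4 * Real.pi / 3) ^ 3 * √(1 - ‖x‖ ^ 2) * psi ‖x‖ - C * ‖T F x‖ ≤ |(L x).det| := by
    intro x hx
    exact hL x (by simpa using hx.1)
  have hcont : ContinuousOn (T F) (closedBall (0 : E 3) r0) := by
    intro x hx
    exact (hL x (by simpa using hx)).1.continuousAt.continuousWithinAt
  have hAm : MeasurableSet A := by
    obtain ⟨U, hU1, hU2⟩ := (_root_.continuousOn_iff'.1 hcont) (ball (0 : E 3) ε) isOpen_ball
    have h2 : A = U ∩ closedBall (0 : E 3) r0 := by
      rw [← hU2, hA, inter_comm]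
      congr 1
      ext x
      simp
    rw [h2]
    exact hU1.measurableSet.inter isClosed_closedBall.measurableSet
  have hinj : InjOn (T F) A := by
    intro x hx y hy hxy
    have hx1 : ‖x‖ ≤ r0 := by simpa using hx.1
    have hy1 : ‖y‖ ≤ r0 := by simpa using hy.1
    exact hI x y (by linarith) (by linarith) hxy
  have himg : volume (T F '' A) ≤ volume (ball (0 : E 3) ε) := by
    apply measure_mono
    rintro _ ⟨x, hx, rfl⟩
    rw [mem_ball_zero_iff]
    exact hx.2
  rw [← lintegral_abs_det_fderiv_eq_addHaar_image volume hAm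
    (fun x hx => (hLA x hx).1.hasFDerivWithinAt) hinj] at himg
  calc ∫⁻ x in A, ENNReal.ofReal ((4 * Real.pi / 3) ^ 3 * √(1 - ‖x‖ ^ 2) * psi ‖x‖)
      ≤ ∫⁻ x in A, ENNReal.ofReal (1 + δ) * ENNReal.ofReal |(L x).det| := by
        apply setLIntegral_mono' hAm
        intro x hx
        rw [← ENNReal.ofReal_mul (by linarith)]
        apply ENNReal.ofReal_le_ofReal
        have h2 := (hLA x hx).2
        have h3 : ‖T F x‖ < ε := hx.2
        have hx1 : ‖x‖ ≤ r0 := by simpa using hx.1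
        have h4 : 1 / 2 ≤ psi ‖x‖ := psi_low (norm_nonneg x) (by linarith)
        have h4' : √(1 - r0 ^ 2) ≤ √(1 - ‖x‖ ^ 2) := by
          apply Real.sqrt_le_sqrt
          have := pow_le_pow_left₀ (norm_nonneg x) hx1 2
          linarith
        have h5 : ε * ((1 + δ) * (C + 1)) ≤
            (4 * Real.pi / 3) ^ 3 * √(1 - r0 ^ 2) * (1 / 2) * δ := by
          rwa [le_div_iff₀ (by positivity)] at hε0
        have h6 : C * ‖T F x‖ ≤ (C + 1) * ε := by
          have := norm_nonneg (T F x)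
          nlinarith
        have h7 : (4 * Real.pi / 3) ^ 3 * √(1 - r0 ^ 2) * (1 / 2) * δ ≤
            (4 * Real.pi / 3) ^ 3 * √(1 - ‖x‖ ^ 2) * psi ‖x‖ * δ := by
          apply mul_le_mul_of_nonneg_right _ hδ.le
          apply mul_le_mul _ h4 (by norm_num) (by positivity)
          apply mul_le_mul_of_nonneg_left h4' (by positivity)
        set Q := (4 * Real.pi / 3) ^ 3 * √(1 - ‖x‖ ^ 2) * psi ‖x‖
        have h8 : (1 + δ) * (C * ‖T F x‖) ≤ (1 + δ) * ((C + 1) * ε) :=
          mul_le_mul_of_nonneg_left h6 (by linarith)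
        have h9 : (1 + δ) * (Q - C * ‖T F x‖) ≤ (1 + δ) * |(L x).det| :=
          mul_le_mul_of_nonneg_left h2 (by linarith)
        nlinarith
    _ = ENNReal.ofReal (1 + δ) * ∫⁻ x in A, ENNReal.ofReal |(L x).det| := by
        rw [lintegral_const_mul' _ _ ENNReal.ofReal_ne_top]
    _ ≤ _ := by gcongr

/-! ### the radial integral -/

theorem quot_deriv (m : ℕ) {r : ℝ} (h0 : 0 ≤ r) (h1 : r < 1) :
    HasDerivAt (fun r : ℝ => √(1 - r ^ 2) / (1 + r) ^ (m + 1))
      ((m * (1 + r) - (2 * m + 1)) / (1 + r) ^ (m + 1) / √(1 - r ^ 2)) r := by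
  have hc : 0 < 1 - r ^ 2 := by nlinarith
  have hs : 0 < √(1 - r ^ 2) := Real.sqrt_pos.2 hc
  have hsq : √(1 - r ^ 2) ^ 2 = 1 - r ^ 2 := Real.sq_sqrt hc.le
  have hr1 : 0 < 1 + r := by linarith
  have hB : HasDerivAt (fun a : ℝ => 1 - a ^ 2) (-((2 : ℕ) * r ^ (2 - 1))) r :=
    (hasDerivAt_pow 2 r).const_sub 1
  have hS := hB.sqrt hc.ne'
  have h1r : HasDerivAt (fun a : ℝ => 1 + a) 1 r := (hasDerivAt_id r).const_add 1
  have hQ := hS.div (h1r.pow (m + 1)) (pow_pos hr1 (m + 1)).ne'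
  refine hQ.congr_deriv ?_
  simp only [Nat.cast_ofNat, Nat.add_one_sub_one, pow_one, mul_one, Nat.cast_add,
    Nat.cast_one, Pi.pow_apply, pow_succ (1 + r) m]
  have hx : 0 < (1 + r) ^ m := pow_pos hr1 m
  set x := (1 + r) ^ m
  set s := √(1 - r ^ 2)
  have hne : s ≠ 0 := hs.ne'
  have e1 : (-(2 * r) / (2 * s) * (x * (1 + r)) - s * ((m + 1) * x)) / (x * (1 + r)) ^ 2 =
      (-r * (1 + r) - s ^ 2 * (m + 1)) / (s * x * (1 + r) ^ 2) := by
    field_simp
  rw [e1, hsq]
  field_simp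
  ring

/-- the primitive -/
noncomputable def PP (r : ℝ) : ℝ :=
  324768 / 1000000 * ((Real.arcsin r - r * √(1 - r ^ 2)) / 2) +
  1188080 / 1000000 * (-Real.arcsin r - √(1 - r ^ 2) - √(1 - r ^ 2) / (1 + r) ^ (0 + 1)) +
  (-350464) / 1000000 * (Real.arcsin r + 5 / 3 * (√(1 - r ^ 2) / (1 + r) ^ (0 + 1)) -
    1 / 3 * (√(1 - r ^ 2) / (1 + r) ^ (1 + 1))) +
  (-162384) / 1000000 * (-(7 / 15) * (√(1 - r ^ 2) / (1 + r) ^ (0 + 1)) +
    8 / 15 * (√(1 - r ^ 2) / (1 + r) ^ (1 + 1)) -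
    3 / 15 * (√(1 - r ^ 2) / (1 + r) ^ (2 + 1)))

theorem PP_deriv {r : ℝ} (h0 : 0 ≤ r) (h1 : r < 1) :
    HasDerivAt PP (r ^ 2 * (psi r / √(1 - r ^ 2))) r := by
  have hc : 0 < 1 - r ^ 2 := by nlinarith
  have hs : 0 < √(1 - r ^ 2) := Real.sqrt_pos.2 hc
  have hsq : √(1 - r ^ 2) ^ 2 = 1 - r ^ 2 := Real.sq_sqrt hc.le
  have hr1 : 0 < 1 + r := by linarith
  have hB : HasDerivAt (fun a : ℝ => 1 - a ^ 2) (-((2 : ℕ) * r ^ (2 - 1))) r :=
    (hasDerivAt_pow 2 r).const_sub 1
  have hS : HasDerivAt (fun a : ℝ => √(1 - a ^ 2)) (-r / √(1 - r ^ 2)) r := by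
    refine (hB.sqrt hc.ne').congr_deriv ?_
    simp only [Nat.cast_ofNat, Nat.add_one_sub_one, pow_one]
    field_simp
  have hA := Real.hasDerivAt_arcsin (x := r) (by linarith) h1.ne
  have hR : HasDerivAt (fun a : ℝ => a * √(1 - a ^ 2)) ((1 - 2 * r ^ 2) / √(1 - r ^ 2)) r := by
    refine ((hasDerivAt_id r).mul hS).congr_deriv ?_
    simp only [id]
    have e1 : 1 * √(1 - r ^ 2) + r * (-r / √(1 - r ^ 2)) =
        (√(1 - r ^ 2) ^ 2 - r ^ 2) / √(1 - r ^ 2) := by
      field_simp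
      ring
    rw [e1, hsq]
    congr 1
    ring
  have h10 := quot_deriv 0 h0 h1
  have h11 := quot_deriv 1 h0 h1
  have h12 := quot_deriv 2 h0 h1
  have hT := ((((hA.sub hR).div_const 2).const_mul (324768 / 1000000 : ℝ)).add
    ((((hA.neg).sub hS).sub h10).const_mul (1188080 / 1000000 : ℝ))).add
    (((hA.add (h10.const_mul (5 / 3))).sub (h11.const_mul (1 / 3))).const_mul
      ((-350464) / 1000000 : ℝ))
  have hT2 := hT.add ((((h10.const_mul (-(7 / 15))).add (h11.const_mul (8 / 15))).sub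
    (h12.const_mul (3 / 15))).const_mul ((-162384) / 1000000 : ℝ))
  refine HasDerivAt.congr_deriv hT2 ?_
  unfold psi
  simp only [Nat.cast_zero, Nat.cast_one, Nat.cast_ofNat]
  set s := √(1 - r ^ 2)
  have hne : s ≠ 0 := hs.ne'
  have hr1' : 1 + r ≠ 0 := hr1.ne'
  field_simp
  ring

theorem PP_cont : ContinuousOn PP (Icc 0 1) := by
  unfold PP
  have h1 : ∀ m : ℕ, ContinuousOn (fun r : ℝ => √(1 - r ^ 2) / (1 + r) ^ (m + 1)) (Icc 0 1) := by
    intro m
    apply ContinuousOn.div (by fun_prop) (by fun_prop)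
    intro r hr
    have : 0 < 1 + r := by linarith [hr.1]
    positivity
  have h3 : ContinuousOn (fun r : ℝ => √(1 - r ^ 2)) (Icc 0 1) := by fun_prop
  have h4 : ContinuousOn (fun r : ℝ => Real.arcsin r) (Icc 0 1) := Real.continuous_arcsin.continuousOn
  have h5 : ContinuousOn (fun r : ℝ => r * √(1 - r ^ 2)) (Icc 0 1) := continuousOn_id.mul h3
  exact (((continuousOn_const.mul ((h4.sub h5).div_const 2)).add
    (continuousOn_const.mul ((h4.neg.sub h3).sub (h1 0)))).add
    (continuousOn_const.mul ((h4.add (continuousOn_const.mul (h1 0))).sub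
      (continuousOn_const.mul (h1 1))))).add
    (continuousOn_const.mul (((continuousOn_const.mul (h1 0)).add
      (continuousOn_const.mul (h1 1))).sub (continuousOn_const.mul (h1 2))))

theorem PP_diff : Real.pi * (8402 / 10000) / 4 < PP 1 - PP 0 := by
  have h : PP 1 - PP 0 = 324768 / 1000000 * (Real.pi / 4) +
      1188080 / 1000000 * (2 - Real.pi / 2) + (-350464) / 1000000 * (Real.pi / 2 - 4 / 3) +
      (-162384) / 1000000 * (2 / 15) := by
    unfold PP
    simp
    ring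
  rw [h]
  have := Real.pi_lt_d4
  linarith

/-- [FB-RAD] -/
theorem s_RAD : S_RAD := by
  have hb := PP_diff
  -- a radius
  obtain ⟨r0, ⟨hr1, hr2⟩, hr3⟩ :
      ∃ r0 ∈ Ioo (0 : ℝ) 1, Real.pi * (8402 / 10000) / 4 < PP r0 - PP 0 := by
    have h1 : Tendsto (fun r => PP r - PP 0) (𝓝[Ioo 0 1] 1) (𝓝 (PP 1 - PP 0)) := by
      apply Tendsto.sub_const
      exact (PP_cont 1 (right_mem_Icc.2 zero_le_one)).mono_left (nhdsWithin_mono _ Ioo_subset_Icc_self)
    have h2 := h1.eventually_const_lt hb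
    have h3 : (𝓝[Ioo (0 : ℝ) 1] 1).NeBot := by
      rw [nhdsWithin_Ioo_eq_nhdsLT zero_lt_one]
      infer_instance
    obtain ⟨r0, h4, h5⟩ := (h2.and self_mem_nhdsWithin).exists
    exact ⟨r0, h5, h4⟩
  refine ⟨r0, hr1, hr2, ?_⟩
  -- the function of the radius
  set f : ℝ → ℝ := indicator (Icc 0 r0) (fun r => psi r / √(1 - r ^ 2)) with hf
  have hfc : ContinuousOn (fun r => psi r / √(1 - r ^ 2)) (Icc 0 r0) := by
    apply ContinuousOn.div (psi_cont (fun r hr => hr.1)) (by fun_prop)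
    intro r hr
    have : 0 < 1 - r ^ 2 := by nlinarith [hr.1, hr.2]
    exact (Real.sqrt_pos.2 this).ne'
  have hpos : ∀ r ∈ Icc (0 : ℝ) r0, 0 ≤ psi r / √(1 - r ^ 2) := by
    intro r hr
    have h1 := psi_low hr.1 (hr.2.trans hr2.le)
    exact div_nonneg (by linarith) (Real.sqrt_nonneg _)
  have hf0 : ∀ r, 0 ≤ f r := fun r => indicator_nonneg hpos r
  have hdim : Module.finrank ℝ (E 3) = 3 := by simp [E]
  -- the lintegral
  have h1 : ∫⁻ x in closedBall (0 : E 3) r0, ENNReal.ofReal (psi ‖x‖ / √(1 - ‖x‖ ^ 2)) =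
      ∫⁻ x : E 3, ENNReal.ofReal (f ‖x‖) := by
    rw [← lintegral_indicator isClosed_closedBall.measurableSet]
    congr 1
    funext x
    by_cases hx : x ∈ closedBall (0 : E 3) r0
    · rw [indicator_of_mem hx, hf, indicator_of_mem]
      exact ⟨norm_nonneg x, by simpa using hx⟩
    · rw [indicator_of_notMem hx, hf, indicator_of_notMem, ENNReal.ofReal_zero]
      intro h
      exact hx (by simpa using h.2)
  have hint1 : IntegrableOn (fun y : ℝ => y ^ (Module.finrank ℝ (E 3) - 1) • f y) (Ioi 0) := by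
    have h2 : (fun y : ℝ => y ^ (Module.finrank ℝ (E 3) - 1) • f y) =
        indicator (Icc 0 r0) (fun y => y ^ (Module.finrank ℝ (E 3) - 1) • (psi y / √(1 - y ^ 2))) := by
      funext y
      rw [hf, indicator_smul]
    rw [h2]
    apply Integrable.integrableOn
    rw [integrable_indicator_iff measurableSet_Icc]
    apply ContinuousOn.integrableOn_compact isCompact_Icc
    have h3 : ContinuousOn (fun y : ℝ => y ^ (Module.finrank ℝ (E 3) - 1)) (Icc 0 r0) := by fun_prop
    exact h3.smul hfc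
  have hint : Integrable (fun x : E 3 => f ‖x‖) := by
    rw [integrable_fun_norm_addHaar]
    exact hint1
  rw [h1, ← ofReal_integral_eq_lintegral_ofReal hint (Eventually.of_forall fun x => hf0 _),
    integral_fun_norm_addHaar volume f, hdim]
  apply ENNReal.ofReal_le_ofReal
  have hvol : (volume : Measure (E 3)).real (ball 0 1) = Real.pi * 4 / 3 := by
    rw [Measure.real, EuclideanSpace.volume_ball_fin_three]
    simp
    positivity
  have hI : ∫ y in Ioi (0 : ℝ), y ^ (3 - 1) • f y = PP r0 - PP 0 := by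
    have h2 : ∫ y in Ioi (0 : ℝ), y ^ (3 - 1) • f y = ∫ y in Ioc (0 : ℝ) r0,
        y ^ 2 * (psi y / √(1 - y ^ 2)) := by
      have h3 : Ioc (0 : ℝ) r0 = Ioi 0 ∩ Iic r0 := Ioi_inter_Iic.symm
      rw [h3, ← setIntegral_indicator measurableSet_Iic]
      apply setIntegral_congr_fun measurableSet_Ioi
      intro y hy
      simp only [mem_Ioi] at hy
      by_cases hyr : y ≤ r0
      · rw [indicator_of_mem (show y ∈ Iic r0 from hyr)]
        simp only [hf]
        rw [indicator_of_mem (show y ∈ Icc 0 r0 from ⟨hy.le, hyr⟩)]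
        simp
      · rw [indicator_of_notMem (show y ∉ Iic r0 from hyr)]
        simp only [hf]
        rw [indicator_of_notMem (fun h => hyr h.2)]
        simp
    rw [h2, ← intervalIntegral.integral_of_le hr1.le]
    apply intervalIntegral.integral_eq_sub_of_hasDerivAt
    · intro y hy
      rw [uIcc_of_le hr1.le] at hy
      exact PP_deriv hy.1 (hy.2.trans_lt hr2)
    · apply ContinuousOn.intervalIntegrable
      rw [uIcc_of_le hr1.le]
      exact (continuousOn_id.pow 2).mul hfc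
  rw [hI, hvol]
  simp only [nsmul_eq_mul, smul_eq_mul, Nat.cast_ofNat]
  have := Real.pi_pos
  nlinarith

end Pool.Agent.L7h97.FB
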