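import Pool.Agent.L7h64.FB.Stm
import Pool.Agent.H241R3.FV.TExt
import Pool.Agent.H241R3.FV.TInv
import Pool.Agent.H241R3.FV.TPolar
import Pool.Agent.H241R3.FV.TBdry

/-! Project FB, parts (A): S_FF, S_LQ, S_CQ, S_BD (copies of `L7h22.FA.Fr1`, `L7h22.FA.Lq`). -/

set_option autoImplicit false
set_option linter.unusedVariables false

open MeasureTheory Metric Set Filter Topology InnerProductGeometry

namespace Pool.Agent.L7h97.FB

open Pool.Agent.H241R3.FV (E Sph sig ext gnorm act mat RChart Fill)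
open Pool.Agent.L7h64.FB

theorem s_FF : S_FF := by
  intro M _ bd hNS
  obtain ⟨h1, h2, h3⟩ := Pool.Agent.H241R3.FV.taskExt 3 (by norm_num) M bd hNS
  refine ⟨fun q θ θ' => ?_, fun q q' θ => ?_, fun p θ => ?_⟩
  · have := h2 θ' θ q
    rw [show FF bd q θ - FF bd q θ' = ext bd θ' q - ext bd θ q by simp only [FF]; ring,
      angle_comm]
    exact this
  · have := h1 θ q' q
    rw [show FF bd q θ - FF bd q' θ = ext bd θ q' - ext bd θ q by simp only [FF]; ring, dist_comm]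
    exact this
  · have hp : ‖(p : E 3)‖ = 1 := by simpa using p.2
    have hθ : ‖(θ : E 3)‖ = 1 := by simpa using θ.2
    simp only [FF]
    rw [h3, angle, hp, hθ, mul_one, div_one, Real.arccos, real_inner_comm]
    ring

/-! ### tools -/

instance sig_fin : IsFiniteMeasure (sig 3) :=
  inferInstanceAs (IsFiniteMeasure (volume : Measure (E 3)).toSphere)

theorem lip_cont {F : Sph 3 → ℝ} (hF : Lip1 F) : Continuous F := by
  rw [continuous_iff_continuousAt]
  intro θ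
  have h0 : (θ : E 3) ≠ 0 := by
    intro h
    have h1 : ‖(θ : E 3)‖ = 1 := by simpa using θ.2
    rw [h, norm_zero] at h1
    exact zero_ne_one h1
  have h1 : Tendsto (fun θ' : Sph 3 => angle (θ' : E 3) (θ : E 3)) (𝓝 θ) (𝓝 0) := by
    have h2 : ContinuousAt (fun θ' : Sph 3 => angle (θ' : E 3) (θ : E 3)) θ := by
      have h3 := InnerProductGeometry.continuousAt_angle (x := ((θ : E 3), (θ : E 3))) h0 h0
      have h4 : ContinuousAt (fun θ' : Sph 3 => ((θ' : E 3), (θ : E 3))) θ := by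
        apply Continuous.continuousAt
        fun_prop
      exact ContinuousAt.comp (f := fun θ' : Sph 3 => ((θ' : E 3), (θ : E 3))) h3 h4
    have h5 := h2.tendsto
    rwa [InnerProductGeometry.angle_self h0] at h5
  unfold ContinuousAt
  rw [tendsto_iff_dist_tendsto_zero]
  refine squeeze_zero (fun _ => dist_nonneg) (fun θ' => ?_) h1
  rw [Real.dist_eq]
  exact hF θ' θ

theorem norm_sph (θ : Sph 3) : ‖(θ : E 3)‖ = 1 := by simpa using θ.2

theorem inner_lt {x : E 3} (hx : ‖x‖ < 1) (θ : Sph 3) : |(inner ℝ x (θ : E 3) : ℝ)| < 1 := by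
  have h1 := abs_real_inner_le_norm x (θ : E 3)
  rw [norm_sph, mul_one] at h1
  linarith

theorem DD_pos {x : E 3} (hx : ‖x‖ < 1) (θ : Sph 3) : 0 < DD x (θ : E 3) := by
  unfold DD
  apply Real.sqrt_pos.2
  have h1 := inner_lt hx θ
  have h2 : (inner ℝ x (θ : E 3) : ℝ) ^ 2 < 1 := by
    rw [← sq_abs]
    nlinarith [abs_nonneg (inner ℝ x (θ : E 3) : ℝ)]
  linarith

theorem DD_sq_ge {x : E 3} (hx : ‖x‖ < 1) (θ : Sph 3) : 1 - ‖x‖ ^ 2 ≤ DD x (θ : E 3) ^ 2 := by
  have h1 := abs_real_inner_le_norm x (θ : E 3)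
  rw [norm_sph, mul_one] at h1
  have h2 : (inner ℝ x (θ : E 3) : ℝ) ^ 2 ≤ ‖x‖ ^ 2 := by
    rw [← sq_abs]
    exact pow_le_pow_left₀ (abs_nonneg _) h1 2
  unfold DD
  rw [Real.sq_sqrt (by nlinarith [norm_nonneg x])]
  linarith

theorem DD_cont (x : E 3) : Continuous (fun θ : Sph 3 => DD x (θ : E 3)) := by
  unfold DD
  fun_prop

theorem kernel_cont {F : Sph 3 → ℝ} (hF : Continuous F) {x : E 3} (hx : ‖x‖ < 1) :
    Continuous (fun θ : Sph 3 => (F θ - Real.arcsin (inner ℝ x (θ : E 3))) / DD x (θ : E 3) ^ 4) := by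
  apply Continuous.div
  · apply hF.sub
    apply Real.continuous_arcsin.comp
    fun_prop
  · exact (DD_cont x).pow 4
  · intro θ
    exact (pow_pos (DD_pos hx θ) 4).ne'

theorem integrable_sig {G : Type*} [NormedAddCommGroup G] {f : Sph 3 → G} (hf : Continuous f) :
    Integrable f (sig 3) :=
  hf.integrable_of_hasCompactSupport (HasCompactSupport.of_compactSpace f)

/-- the scalar product of `T` with a vector -/
theorem inner_T {F : Sph 3 → ℝ} (hF : Continuous F) {x : E 3} (hx : ‖x‖ < 1) (v : E 3) :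
    (inner ℝ (T F x) v : ℝ) = ∫ θ : Sph 3, (1 - ‖x‖ ^ 2) *
      ((F θ - Real.arcsin (inner ℝ x (θ : E 3))) / DD x (θ : E 3) ^ 4) *
        (inner ℝ (θ : E 3) v : ℝ) ∂(sig 3) := by
  have h1 : Integrable (fun θ : Sph 3 => ((F θ - Real.arcsin (inner ℝ x (θ : E 3))) /
      DD x (θ : E 3) ^ 4) • (θ : E 3)) (sig 3) :=
    integrable_sig ((kernel_cont hF hx).smul continuous_subtype_val)
  unfold T
  rw [real_inner_smul_left, real_inner_comm, ← integral_inner h1 v, ← integral_const_mul]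
  congr 1
  funext θ
  rw [real_inner_smul_right, real_inner_comm (θ : E 3) v]
  ring

theorem om_two : Pool.Agent.H241R3.FV.om 2 = Real.pi := by
  unfold Pool.Agent.H241R3.FV.om
  rw [measureReal_def, EuclideanSpace.volume_ball_fin_two]
  simp [Real.pi_pos.le]

/-- the area of the sphere -/
theorem sig_univ : (sig 3).real univ = 4 * Real.pi := by
  have h1 := Pool.Agent.H241R3.FV.TPolar.taskPolar 2 (by norm_num) (fun _ => 1) continuous_const
  rw [integral_const, smul_eq_mul, mul_one] at h1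
  rw [h1, om_two]
  simp
  ring

theorem int_inner_sq_unit (p : Sph 3) :
    ∫ θ : Sph 3, (inner ℝ (p : E 3) (θ : E 3) : ℝ) ^ 2 ∂(sig 3) = 4 * Real.pi / 3 := by
  obtain ⟨R, hR⟩ := Pool.Agent.H241R3.FV.TBdry.exists_rot (d := 2) p
  have h1 := Pool.Agent.H241R3.FV.TBdry.int_rot (n := 3) (by norm_num)
    Pool.Agent.H241R3.FV.TInv.taskInv R
    (fun θ : Sph 3 => (inner ℝ (EuclideanSpace.single 0 1 : E 3) (θ : E 3) : ℝ) ^ 2)
  have h2 : ∀ θ : Sph 3, (inner ℝ (EuclideanSpace.single 0 1 : E 3)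
      ((Pool.Agent.H241R3.FV.rot R θ : Sph 3) : E 3) : ℝ) = inner ℝ (p : E 3) (θ : E 3) := by
    intro θ
    rw [← hR]
    exact R.inner_map_map _ _
  simp only [h2] at h1
  rw [h1]
  have h3 := Pool.Agent.H241R3.FV.TPolar.taskPolar 2 (by norm_num) (fun t => Real.cos t ^ 2) (by fun_prop)
  have h4 : ∀ θ : Sph 3, Real.cos (angle (θ : E 3) (EuclideanSpace.single 0 1 : E 3)) =
      inner ℝ (EuclideanSpace.single 0 1 : E 3) (θ : E 3) := by
    intro θ
    rw [InnerProductGeometry.cos_angle, norm_sph, one_mul, real_inner_comm]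
    simp
  simp only [h4] at h3
  rw [h3, om_two]
  have h5 : ∫ t in (0 : ℝ)..Real.pi, Real.cos t ^ 2 * Real.sin t ^ (2 - 1) = 2 / 3 := by
    have h6 : ∀ t ∈ Set.uIcc (0 : ℝ) Real.pi,
        HasDerivAt (fun t : ℝ => -(Real.cos t ^ 3) / 3) (Real.cos t ^ 2 * Real.sin t ^ (2 - 1)) t := by
      intro t _
      have h7 := (((Real.hasDerivAt_cos t).pow 3).neg).div_const 3
      refine h7.congr_deriv ?_
      simp
      ring
    rw [intervalIntegral.integral_eq_sub_of_hasDerivAt h6]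
    · simp
      norm_num
    · apply Continuous.intervalIntegrable
      fun_prop
  rw [h5]
  push_cast
  ring

theorem int_inner_sq (u : E 3) : ∫ θ : Sph 3, (inner ℝ u (θ : E 3) : ℝ) ^ 2 ∂(sig 3) =
    4 * Real.pi / 3 * ‖u‖ ^ 2 := by
  by_cases hu : u = 0
  · subst hu
    simp
  · have hn : ‖u‖ ≠ 0 := norm_ne_zero_iff.2 hu
    have h1 : ‖‖u‖⁻¹ • u‖ = 1 := by
      rw [norm_smul, norm_inv, norm_norm, inv_mul_cancel₀ hn]
    have h2 := int_inner_sq_unit ⟨‖u‖⁻¹ • u, by simpa using h1⟩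
    have h3 : ∀ θ : Sph 3, (inner ℝ (‖u‖⁻¹ • u) (θ : E 3) : ℝ) ^ 2 =
        (‖u‖ ^ 2)⁻¹ * (inner ℝ u (θ : E 3) : ℝ) ^ 2 := by
      intro θ
      rw [real_inner_smul_left, mul_pow, inv_pow]
    simp only [h3] at h2
    rw [integral_const_mul, inv_mul_eq_iff_eq_mul₀ (pow_ne_zero 2 hn)] at h2
    rw [h2]
    ring

theorem T_sub {F F' : Sph 3 → ℝ} (hF : Continuous F) (hF' : Continuous F') {x : E 3}
    (hx : ‖x‖ < 1) : T F x - T F' x = (1 - ‖x‖ ^ 2) • ∫ θ : Sph 3,
      ((F θ - F' θ) * (DD x (θ : E 3) ^ 4)⁻¹) • (θ : E 3) ∂(sig 3) := by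
  have h1 : Integrable (fun θ : Sph 3 => ((F θ - Real.arcsin (inner ℝ x (θ : E 3))) /
      DD x (θ : E 3) ^ 4) • (θ : E 3)) (sig 3) :=
    integrable_sig ((kernel_cont hF hx).smul continuous_subtype_val)
  have h2 : Integrable (fun θ : Sph 3 => ((F' θ - Real.arcsin (inner ℝ x (θ : E 3))) /
      DD x (θ : E 3) ^ 4) • (θ : E 3)) (sig 3) :=
    integrable_sig ((kernel_cont hF' hx).smul continuous_subtype_val)
  unfold T
  rw [← smul_sub, ← integral_sub h1 h2]
  congr 2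
  funext θ
  rw [← sub_smul]
  congr 1
  ring

theorem T_sub_le {F F' : Sph 3 → ℝ} (hF : Continuous F) (hF' : Continuous F') {x : E 3}
    (hx : ‖x‖ < 1) {δ : ℝ} (h : ∀ θ, |F θ - F' θ| ≤ δ) :
    ‖T F x - T F' x‖ ≤ 4 * Real.pi / (1 - ‖x‖ ^ 2) * δ := by
  have hδ : 0 ≤ δ := (abs_nonneg _).trans (h ⟨EuclideanSpace.single 0 1, by simp⟩)
  have hx2 : 0 < 1 - ‖x‖ ^ 2 := by nlinarith [norm_nonneg x]
  rw [T_sub hF hF' hx, norm_smul, Real.norm_eq_abs, abs_of_pos hx2]
  have h2 : ‖∫ θ : Sph 3, ((F θ - F' θ) * (DD x (θ : E 3) ^ 4)⁻¹) • (θ : E 3) ∂(sig 3)‖ ≤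
      δ * ((1 - ‖x‖ ^ 2) ^ 2)⁻¹ * (sig 3).real univ := by
    apply norm_integral_le_of_norm_le_const
    filter_upwards with θ
    have h3 : 0 < (DD x (θ : E 3) ^ 4)⁻¹ := inv_pos.2 (pow_pos (DD_pos hx θ) 4)
    have h4 : (DD x (θ : E 3) ^ 4)⁻¹ ≤ ((1 - ‖x‖ ^ 2) ^ 2)⁻¹ := by
      apply inv_anti₀ (by positivity)
      rw [show DD x (θ : E 3) ^ 4 = (DD x (θ : E 3) ^ 2) ^ 2 by ring]
      exact pow_le_pow_left₀ hx2.le (DD_sq_ge hx θ) 2
    rw [norm_smul, norm_sph, mul_one, norm_mul, Real.norm_eq_abs, Real.norm_eq_abs,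
      abs_of_pos h3]
    exact mul_le_mul (h θ) h4 h3.le hδ
  rw [sig_univ] at h2
  calc (1 - ‖x‖ ^ 2) * _ ≤ (1 - ‖x‖ ^ 2) * (δ * ((1 - ‖x‖ ^ 2) ^ 2)⁻¹ * (4 * Real.pi)) :=
        mul_le_mul_of_nonneg_left h2 hx2.le
    _ = _ := by field_simp

/-- [FB-LQ] -/
theorem s_LQ : S_LQ := by
  intro x hx F F' δ hF hF' h
  exact T_sub_le (lip_cont hF) (lip_cont hF') hx h

/-- continuity in `x` -/
theorem T_cont {F : Sph 3 → ℝ} (hF : Continuous F) {x : E 3} (hx : ‖x‖ < 1) :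
    ContinuousAt (T F) x := by
  obtain ⟨C, hC⟩ : ∃ C, ∀ θ, |F θ| ≤ C := by
    obtain ⟨C, hC⟩ := (isCompact_univ (X := Sph 3)).exists_bound_of_continuousOn hF.continuousOn
    exact ⟨C, fun θ => hC θ (mem_univ θ)⟩
  obtain ⟨ρ, hρ1, hρ2⟩ := exists_between hx
  have hρ0 : 0 ≤ ρ := (norm_nonneg x).trans hρ1.le
  have hev : ∀ᶠ y in 𝓝 x, ‖y‖ < ρ := (continuous_norm.tendsto x).eventually_lt_const hρ1
  have hlow : ∀ y : E 3, ‖y‖ < ρ → ∀ θ : Sph 3, √(1 - ρ ^ 2) ≤ DD y (θ : E 3) := by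
    intro y hy θ
    unfold DD
    apply Real.sqrt_le_sqrt
    have h1 := abs_real_inner_le_norm y (θ : E 3)
    rw [norm_sph, mul_one] at h1
    have h2 : (inner ℝ y (θ : E 3) : ℝ) ^ 2 ≤ ρ ^ 2 := by
      rw [← sq_abs]
      exact pow_le_pow_left₀ (abs_nonneg _) (h1.trans hy.le) 2
    linarith
  have hs : 0 < √(1 - ρ ^ 2) := Real.sqrt_pos.2 (by nlinarith)
  have hint : ContinuousAt (fun x : E 3 => ∫ θ : Sph 3, ((F θ - Real.arcsin (inner ℝ x (θ : E 3))) /
      DD x (θ : E 3) ^ 4) • (θ : E 3) ∂(sig 3)) x := by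
    apply continuousAt_of_dominated (bound := fun _ => (C + Real.pi / 2) / √(1 - ρ ^ 2) ^ 4)
    · filter_upwards [hev] with y hy
      exact (((kernel_cont hF (hy.trans hρ2)).smul continuous_subtype_val)).aestronglyMeasurable
    · filter_upwards [hev] with y hy
      filter_upwards with θ
      have h1 := DD_pos (hy.trans hρ2) θ
      rw [norm_smul, norm_sph, mul_one, norm_div, norm_pow, Real.norm_eq_abs, Real.norm_eq_abs,
        abs_of_pos h1]
      apply div_le_div₀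
      · have := (abs_nonneg _).trans (hC θ)
        positivity
      · refine (abs_sub _ _).trans (add_le_add (hC θ) ?_)
        rw [abs_le]
        exact ⟨Real.neg_pi_div_two_le_arcsin _, Real.arcsin_le_pi_div_two _⟩
      · positivity
      · exact pow_le_pow_left₀ hs.le (hlow y hy θ) 4
    · exact integrable_const _
    · filter_upwards with θ
      have hk : ContinuousAt (fun x : E 3 => (F θ - Real.arcsin (inner ℝ x (θ : E 3))) /
          DD x (θ : E 3) ^ 4) x := by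
        apply ContinuousAt.div
        · apply Continuous.continuousAt
          exact continuous_const.sub (Real.continuous_arcsin.comp (by fun_prop))
        · apply Continuous.continuousAt
          unfold DD
          fun_prop
        · exact (pow_pos (DD_pos hx θ) 4).ne'
      exact hk.smul continuousAt_const
  have hc1 : ContinuousAt (fun x : E 3 => 1 - ‖x‖ ^ 2) x := by
    apply Continuous.continuousAt
    fun_prop
  exact hc1.smul hint

/-- [FB-CQ] -/
theorem s_CQ : S_CQ := by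
  intro M _ bd hNS
  obtain ⟨h1, h2, h3⟩ := s_FF M bd hNS
  rintro ⟨x, q⟩ hx
  simp only [mem_ofPred_eq] at hx
  apply ContinuousAt.continuousWithinAt
  have hcx := T_cont (lip_cont (h1 q)) hx
  obtain ⟨ρ, hρ1, hρ2⟩ := exists_between hx
  have hρ0 : 0 ≤ ρ := (norm_nonneg x).trans hρ1.le
  have hρ3 : 0 < 1 - ρ ^ 2 := by nlinarith
  have hev : ∀ᶠ z : E 3 × M in 𝓝 (x, q), ‖z.1‖ < ρ :=
    ((continuous_norm.comp continuous_fst).tendsto (x, q)).eventually_lt_const hρ1
  have hA : Tendsto (fun z : E 3 × M => T (FF bd z.2) z.1 - T (FF bd q) z.1) (𝓝 (x, q)) (𝓝 0) := by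
    apply squeeze_zero_norm' (a := fun z : E 3 × M => 4 * Real.pi / (1 - ρ ^ 2) * dist z.2 q)
    · filter_upwards [hev] with z hz
      refine (T_sub_le (lip_cont (h1 z.2)) (lip_cont (h1 q)) (hz.trans hρ2)
        (fun θ => h2 z.2 q θ)).trans ?_
      apply mul_le_mul_of_nonneg_right _ dist_nonneg
      apply div_le_div_of_nonneg_left (by positivity) hρ3
      have := pow_le_pow_left₀ (norm_nonneg z.1) hz.le 2
      linarith
    · have h4 : Continuous (fun z : E 3 × M => 4 * Real.pi / (1 - ρ ^ 2) * dist z.2 q) := by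
        fun_prop
      have h5 := h4.tendsto (x, q)
      simpa using h5
  have hB : Tendsto (fun z : E 3 × M => T (FF bd q) z.1) (𝓝 (x, q)) (𝓝 (T (FF bd q) x)) :=
    Tendsto.comp (f := fun z : E 3 × M => z.1) hcx (continuous_fst.tendsto (x, q))
  have hC := hA.add hB
  simp only [sub_add_cancel, zero_add] at hC
  exact hC

theorem arcsin_sub {a b : ℝ} (ha : a ∈ Icc (-1 : ℝ) 1) (hb : b ∈ Icc (-1 : ℝ) 1) :
    (a - b) ^ 2 ≤ (Real.arcsin a - Real.arcsin b) * (a - b) := by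
  have key : ∀ {u v : ℝ}, u ∈ Icc (-1 : ℝ) 1 → v ∈ Icc (-1 : ℝ) 1 → v ≤ u →
      u - v ≤ Real.arcsin u - Real.arcsin v := by
    intro u v hu hv huv
    have h1 : Real.sin (Real.arcsin u) - Real.sin (Real.arcsin v) ≤
        |Real.arcsin u - Real.arcsin v| := by
      refine (le_abs_self _).trans ?_
      have h2 := Real.abs_sin_sub_sin_le (Real.arcsin u) (Real.arcsin v)
      exact h2
    rw [Real.sin_arcsin hu.1 hu.2, Real.sin_arcsin hv.1 hv.2,
      abs_of_nonneg (sub_nonneg.2 (Real.monotone_arcsin huv))] at h1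
    exact h1
  rcases le_total b a with h | h
  · have h1 := key ha hb h
    nlinarith
  · have h1 := key hb ha h
    nlinarith

/-- [FB-BD] -/
theorem s_BD : S_BD := by
  intro M _ bd hNS x hx p
  obtain ⟨h1, h2, h3⟩ := s_FF M bd hNS
  have hFc := lip_cont (h1 (bd p))
  rw [inner_T hFc hx]
  have hx2 : 0 < 1 - ‖x‖ ^ 2 := by nlinarith [norm_nonneg x]
  have h4 : 4 * Real.pi / 3 * (1 - ‖x‖ ^ 2) * ‖(p : E 3) - x‖ ^ 2 =
      ∫ θ : Sph 3, (1 - ‖x‖ ^ 2) * (inner ℝ ((p : E 3) - x) (θ : E 3) : ℝ) ^ 2 ∂(sig 3) := by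
    rw [integral_const_mul, int_inner_sq]
    ring
  rw [h4]
  apply integral_mono
  · exact integrable_sig (by fun_prop)
  · exact integrable_sig (((continuous_const).mul (kernel_cont hFc hx)).mul (by fun_prop))
  · intro θ
    simp only
    rw [h3 p θ, mul_assoc]
    apply mul_le_mul_of_nonneg_left _ hx2.le
    have hp : (inner ℝ (p : E 3) (θ : E 3) : ℝ) ∈ Icc (-1 : ℝ) 1 := by
      have h5 := abs_real_inner_le_norm (p : E 3) (θ : E 3)
      rw [norm_sph, norm_sph, mul_one] at h5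
      exact abs_le.1 h5
    have hxi : (inner ℝ x (θ : E 3) : ℝ) ∈ Icc (-1 : ℝ) 1 := abs_le.1 (inner_lt hx θ).le
    have h6 := arcsin_sub hp hxi
    have h7 := DD_pos hx θ
    have h8 : DD x (θ : E 3) ^ 4 ≤ 1 := by
      apply pow_le_one₀ h7.le
      unfold DD
      rw [Real.sqrt_le_one]
      nlinarith [sq_nonneg (inner ℝ x (θ : E 3) : ℝ)]
    rw [real_inner_comm, inner_sub_right, real_inner_comm (p : E 3) (θ : E 3),
      real_inner_comm x (θ : E 3), div_mul_eq_mul_div, le_div_iff₀ (pow_pos h7 4)]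
    nlinarith [sq_nonneg ((inner ℝ (p : E 3) (θ : E 3) : ℝ) - inner ℝ x (θ : E 3)), pow_pos h7 4]

end Pool.Agent.L7h97.FB
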